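import Mathlib
import Pool.Agent.Helper70.LT.Main

/-!
# The leading constant of the maximum percolation time for all thresholds `3 ≤ r ≤ d`
-/

namespace Pool.Agent.Results.MP_fc3ed9_co.LowThresholds

open Filter Topology

/-- The grid graph on `Fin d → Fin n`: two points are adjacent when they differ by one in
exactly one coordinate and agree in all others. -/
def grid (d n : ℕ) : SimpleGraph (Fin d → Fin n) where
  Adj x y := ∃ i, ((x i : ℕ) + 1 = y i ∨ (y i : ℕ) + 1 = x i) ∧ ∀ j, j ≠ i → x j = y j
  symm := ⟨by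
    rintro x y ⟨i, h1, h2⟩
    exact ⟨i, h1.symm, fun j hj => (h2 j hj).symm⟩⟩
  loopless := ⟨by
    rintro x ⟨i, h1, h2⟩
    omega⟩

/-- The `r`-neighbour bootstrap process on the grid started from `A`. -/
def infected (d r n : ℕ) (A : Set (Fin d → Fin n)) : ℕ → Set (Fin d → Fin n)
  | 0 => A
  | t + 1 => infected d r n A t ∪
      {v | r ≤ ((grid d n).neighborSet v ∩ infected d r n A t).ncard}

/-- `A` percolates: every vertex is infected at some time. -/
def Percolates (d r n : ℕ) (A : Set (Fin d → Fin n)) : Prop :=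
  ⋃ t, infected d r n A t = Set.univ

/-- The percolation time of `A`. -/
noncomputable def percTime (d r n : ℕ) (A : Set (Fin d → Fin n)) : ℕ :=
  sInf {t | infected d r n A t = Set.univ}

/-- The maximum percolation time. -/
noncomputable def maxTime (d r n : ℕ) : ℕ :=
  sSup {T | ∃ A, Percolates d r n A ∧ percTime d r n A = T}

theorem infected_eq : @infected = @Pool.Agent.Helper70.LT.infected := by
  funext d r n A t
  induction t with
  | zero => rfl
  | succ t ih =>
    have h : infected d r n A (t + 1) = infected d r n A t ∪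
      {v | r ≤ ((grid d n).neighborSet v ∩ infected d r n A t).ncard} := rfl
    rw [h, ih]
    rfl

theorem maxTime_eq : @maxTime = @Pool.Agent.Helper70.LT.maxTime := by
  funext d r n
  unfold maxTime Pool.Agent.Helper70.LT.maxTime Percolates Pool.Agent.Helper70.LT.Percolates
    percTime Pool.Agent.Helper70.LT.percTime
  rw [infected_eq]

/-- For all `3 ≤ r ≤ d` : `M_r^d(n) = (r - 1) / (2 d - r - 1) * n^d + O(n^(d - 1))`. -/
theorem result : ∀ d r : ℕ, 3 ≤ r → r ≤ d →
    (∀ n : ℕ, (2 * d - r - 1) * maxTime d r n ≤ (r - 1) * n ^ d + 2 * d * n ^ (d - 1)) ∧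
    (∃ C : ℕ, ∀ n : ℕ, (r - 1) * n ^ d ≤
      (2 * d - r - 1) * maxTime d r n + C * n ^ (d - 1)) ∧
    Tendsto (fun n : ℕ => (maxTime d r n : ℝ) / (n : ℝ) ^ d) atTop
      (𝓝 (((r : ℝ) - 1) / (2 * d - r - 1))) := by
  rw [maxTime_eq]
  exact Pool.Agent.Helper70.LT.main

end Pool.Agent.Results.MP_fc3ed9_co.LowThresholds
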