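import Pool.Agent.Helper19.PercRes

/-!
# The order of magnitude of the maximum percolation time for thresholds 3 ≤ r ≤ 2d - 1
-/

namespace Pool.Agent.Results.MP_fc3ed9_co.MaxTimeOrder

open Filter Asymptotics

/-- The grid graph on `Fin d → Fin n`: two points are adjacent when they differ by one in
exactly one coordinate and agree in all others. -/
def grid (d n : ℕ) : SimpleGraph (Fin d → Fin n) where
  Adj x y := ∃ i, ((x i : ℕ) + 1 = y i ∨ (y i : ℕ) + 1 = x i) ∧ ∀ j, j ≠ i → x j = y j
  symm := ⟨by
    rintro x y ⟨i, h1, h2⟩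
    exact ⟨i, h1.symm, fun j hj => (h2 j hj).symm⟩⟩
  loopless := ⟨by
    rintro x ⟨i, h1, h2⟩
    omega⟩

/-- The `r`-neighbour bootstrap process on the grid started from `A`. -/
def infected (d r n : ℕ) (A : Set (Fin d → Fin n)) : ℕ → Set (Fin d → Fin n)
  | 0 => A
  | t + 1 => infected d r n A t ∪
      {v | r ≤ ((grid d n).neighborSet v ∩ infected d r n A t).ncard}

/-- `A` percolates: every vertex is infected at some time. -/
def Percolates (d r n : ℕ) (A : Set (Fin d → Fin n)) : Prop :=
  ⋃ t, infected d r n A t = Set.univ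

/-- The percolation time of `A`. -/
noncomputable def percTime (d r n : ℕ) (A : Set (Fin d → Fin n)) : ℕ :=
  sInf {t | infected d r n A t = Set.univ}

/-- The maximum percolation time. -/
noncomputable def maxTime (d r n : ℕ) : ℕ :=
  sSup {T | ∃ A, Percolates d r n A ∧ percTime d r n A = T}

theorem infected_eq (d r n : ℕ) (A : Set (Fin d → Fin n)) (t : ℕ) :
    infected d r n A t = Pool.Agent.Helper19.PercRes.infected d r n A t := by
  induction t with
  | zero => rfl
  | succ t ih =>
    rw [infected, Pool.Agent.Helper19.PercRes.infected, ih]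
    rfl

theorem maxTime_eq (d r n : ℕ) : maxTime d r n = Pool.Agent.Helper19.PercRes.maxTime d r n := by
  simp only [maxTime, Pool.Agent.Helper19.PercRes.maxTime, Percolates,
    Pool.Agent.Helper19.PercRes.Percolates, percTime, Pool.Agent.Helper19.PercRes.percTime,
    infected_eq]

/-- For all integers `d ≥ 2` and `3 ≤ r ≤ 2d - 1`, the maximum percolation time of `r`-neighbour
bootstrap percolation on the grid `[n]^d` has order of magnitude `n^d`. -/
theorem result : ∀ d r : ℕ, 2 ≤ d → 3 ≤ r → r ≤ 2 * d - 1 →
    (fun n : ℕ => (maxTime d r n : ℝ)) =Θ[atTop] (fun n : ℕ => (n : ℝ) ^ d) := by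
  simp only [maxTime_eq]
  exact Pool.Agent.Helper19.PercRes.main

end Pool.Agent.Results.MP_fc3ed9_co.MaxTimeOrder
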