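import Pool.Agent.Helper18.Snake.TopMain

/-!
# The maximum percolation time for the threshold `r = 2 d - 1`
-/

set_option autoImplicit false

namespace Pool.Agent.Results.MP_fc3ed9_co.TopThreshold

open Pool.Agent.Helper18.Snake.Top

/-- `M_{2d-1}^d(n) ≥ n^d / 2 - O(n^{d-1})` for every `d ≥ 3`, and
`M_{2d-1}^d(n) ≤ n^d / 2 + O(n^{d-1})` for every `d ≥ 4`. -/
theorem result : (∀ d n : ℕ, 3 ≤ d →
      (n : ℝ) ^ d - 15 * d * (n : ℝ) ^ (d - 1) ≤ 2 * maxTime d (2 * d - 1) n) ∧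
    ∀ d n : ℕ, 4 ≤ d → 2 * maxTime d (2 * d - 1) n ≤ (n + 1) ^ d :=
  main

end Pool.Agent.Results.MP_fc3ed9_co.TopThreshold
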